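import Pool.Agent.Helper69.UV.Defs
import Pool.Agent.Helper68.UG.M3

/-!
# UV: block M3: the function `1 * m`
-/

set_option autoImplicit false
open MeasureTheory Set Filter Topology
open Pool.Agent.Helper57.Zeta Pool.Agent.Helper57.LH Pool.Agent.Helper57.ED Pool.Agent.Helper54.LG
open Pool.Agent.Helper69.UG (m3_cop m3_split m3_mu)

namespace Pool.Agent.Helper69.UV

lemma PR_prime {δ T c : ℝ} {p : ℕ} (hp : p ∈ PR δ T c) : p.Prime := by
  unfold PR at hp
  exact (Finset.mem_filter.mp hp).2.1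

theorem gg_mul {δ T c : ℝ} {n₁ n₂ : ℕ} (h1 : n₁ ≠ 0) (h2 : n₂ ≠ 0) (hP1 : n₁.primeFactors ⊆ PR δ T c)
    (hP2 : ∀ p ∈ PR δ T c, ¬ p ∣ n₂) :
    gg δ T c (n₁ * n₂) = (∑ d ∈ n₁.divisors, mb δ T c d) * ∑ d ∈ n₂.divisors, ma δ T c d := by
  classical
  have h12 : n₁ * n₂ ≠ 0 := mul_ne_zero h1 h2
  unfold gg mm
  rw [Finset.sum_sigma', Finset.sum_mul_sum, ← Finset.sum_product']
  have hz : ∀ s ∈ (n₁ * n₂).divisors.sigma (fun d => d.divisorsAntidiagonal),
      s ∉ ((n₁ * n₂).divisors.sigma (fun d => d.divisorsAntidiagonal)).filter (fun s => s.2.1 ∣ n₂ ∧ s.2.2 ∣ n₁) →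
      ma δ T c s.2.1 * mb δ T c s.2.2 = 0 := by
    intro s hs hn
    by_contra h0
    apply hn
    rw [Finset.mem_filter]
    refine ⟨hs, ?_⟩
    rw [Finset.mem_sigma, Nat.mem_divisors, Nat.mem_divisorsAntidiagonal] at hs
    obtain ⟨⟨hd, _⟩, he, he0⟩ := hs
    have hx0 : s.2.1 ≠ 0 := fun h => he0 (by rw [← he, h, zero_mul])
    have hy0 : s.2.2 ≠ 0 := fun h => he0 (by rw [← he, h, mul_zero])
    have ha : ma δ T c s.2.1 ≠ 0 := fun h => h0 (by rw [h, zero_mul])
    have hb : mb δ T c s.2.2 ≠ 0 := fun h => h0 (by rw [h, mul_zero])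
    have ha' : ∀ p ∈ PR δ T c, ¬ p ∣ s.2.1 := by
      by_contra h
      exact ha (by unfold ma; rw [if_neg h])
    have hb' : s.2.2.primeFactors ⊆ PR δ T c := by
      by_contra h
      exact hb (by unfold mb; rw [if_neg (fun h' => h h'.1)])
    constructor
    · exact (m3_cop ha' h1 hP1).dvd_of_dvd_mul_left (dvd_trans ⟨s.2.2, he.symm⟩ hd)
    · exact (m3_cop hP2 hy0 hb').symm.dvd_of_dvd_mul_right (dvd_trans ⟨s.2.1, by rw [mul_comm]; exact he.symm⟩ hd)
  rw [← Finset.sum_subset (Finset.filter_subset _ _) hz]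
  symm
  refine Finset.sum_nbij' (fun x => ⟨x.2 * x.1, (x.2, x.1)⟩) (fun s => (s.2.2, s.2.1)) ?_ ?_ ?_ ?_ ?_
  · intro x hx
    rw [Finset.mem_product, Nat.mem_divisors, Nat.mem_divisors] at hx
    obtain ⟨⟨hx1, _⟩, hx2, _⟩ := hx
    have hx0 : x.2 * x.1 ≠ 0 := by
      intro h
      have := mul_dvd_mul hx1 hx2
      rw [mul_comm x.1, h] at this
      exact h12 (zero_dvd_iff.mp this)
    simp only [Finset.mem_filter, Finset.mem_sigma, Nat.mem_divisors, Nat.mem_divisorsAntidiagonal]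
    exact ⟨⟨⟨by rw [mul_comm x.2]; exact mul_dvd_mul hx1 hx2, h12⟩, trivial, hx0⟩, hx2, hx1⟩
  · intro s hs
    simp only [Finset.mem_filter, Finset.mem_sigma, Nat.mem_divisors, Nat.mem_divisorsAntidiagonal] at hs
    rw [Finset.mem_product, Nat.mem_divisors, Nat.mem_divisors]
    exact ⟨⟨hs.2.2, h1⟩, hs.2.1, h2⟩
  · intro x _
    rfl
  · intro s hs
    simp only [Finset.mem_filter, Finset.mem_sigma, Nat.mem_divisors, Nat.mem_divisorsAntidiagonal] at hs
    obtain ⟨d, x, y⟩ := s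
    simp only at hs ⊢
    rw [hs.1.2.1]
  · intro x _
    exact mul_comm _ _

lemma m3_ma {δ T c : ℝ} (hδ : 0 < δ) (hT : 1 < T) {d : ℕ} (hd0 : d ≠ 0) (hd : (d : ℝ) ≤ T ^ (δ / 32)) (hP : ∀ p ∈ PR δ T c, ¬ p ∣ d) :
    ma δ T c d = (ArithmeticFunction.moebius d : ℝ) := by
  unfold ma
  rw [if_pos hP]
  have hL : 0 < Real.log T := Real.log_pos hT
  have h1 : Real.log d ≤ δ / 32 * Real.log T := by
    rw [← Real.log_rpow (by linarith)]
    exact Real.log_le_log (by positivity) hd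
  have h2 : 32 * Real.log d / (δ * Real.log T) ≤ 1 := by
    rw [div_le_one (mul_pos hδ hL)]
    linarith
  rw [min_eq_left (by linarith), max_eq_right zero_le_one, mul_one]

theorem gg_gap {δ T c : ℝ} (hδ : 0 < δ) (hT : 1 < T) {n : ℕ} (hn : 1 < n) (hn2 : (n : ℝ) ≤ T ^ (δ / 32)) : gg δ T c n = 0 := by
  obtain ⟨a, b, hab, ha0, hb0, ha, hb⟩ := m3_split (PR δ T c) (fun p hp => PR_prime hp) n (by omega)
  have hn0 : n ≠ 0 := by omega
  have hle : ∀ d : ℕ, d ∣ n → (d : ℝ) ≤ T ^ (δ / 32) := fun d hd =>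
    le_trans (by exact_mod_cast Nat.le_of_dvd (by omega) hd) hn2
  rw [hab, gg_mul ha0 hb0 ha hb]
  have e1 : ∑ d ∈ a.divisors, mb δ T c d = if a = 1 then 1 else 0 := by
    have : ∀ d ∈ a.divisors, mb δ T c d = (ArithmeticFunction.moebius d : ℝ) := by
      intro d hd
      rw [Nat.mem_divisors] at hd
      unfold mb
      rw [if_pos ⟨(Nat.primeFactors_mono hd.1 ha0).trans ha, hle d (hd.1.trans ⟨b, hab⟩)⟩]
    rw [Finset.sum_congr rfl this]
    exact m3_mu a
  have e2 : ∑ d ∈ b.divisors, ma δ T c d = if b = 1 then 1 else 0 := by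
    have : ∀ d ∈ b.divisors, ma δ T c d = (ArithmeticFunction.moebius d : ℝ) := by
      intro d hd
      have hd' := Nat.mem_divisors.mp hd
      exact m3_ma hδ hT (Nat.pos_of_mem_divisors hd).ne' (hle d (hd'.1.trans ⟨a, by rw [mul_comm]; exact hab⟩))
        (fun p hp h => hb p hp (h.trans hd'.1))
    rw [Finset.sum_congr rfl this]
    exact m3_mu b
  rw [e1, e2]
  by_cases h : a = 1
  · have hb1 : b ≠ 1 := fun h' => hn.ne' (by rw [hab, h, h'])
    rw [if_neg hb1, mul_zero]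
  · rw [if_neg h, zero_mul]

theorem gb_le {δ T c : ℝ} (n : ℕ) : |∑ d ∈ n.divisors, mb δ T c d| ≤ 2 ^ n.primeFactors.card := by
  classical
  rcases Nat.eq_zero_or_pos n with h0 | h0
  · subst h0
    simp
  have h1 : ∀ d ∈ n.divisors, |mb δ T c d| ≤ if Squarefree d then 1 else 0 := by
    intro d _
    unfold mb
    split_ifs with h h' h'
    · have := ArithmeticFunction.abs_moebius_le_one (n := d)
      exact_mod_cast this
    · rw [ArithmeticFunction.moebius_eq_zero_of_not_squarefree h']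
      simp
    · simp
    · simp
  refine (Finset.abs_sum_le_sum_abs _ _).trans ((Finset.sum_le_sum h1).trans ?_)
  rw [← Finset.sum_filter, Nat.sum_divisors_filter_squarefree h0.ne', Finset.sum_const, Finset.card_powerset]
  rw [nsmul_eq_mul, mul_one]
  have : (UniqueFactorizationMonoid.normalizedFactors n).toFinset = n.primeFactors := by
    rw [Nat.factors_eq]
    rfl
  rw [this]
  push_cast
  exact le_rfl

end Pool.Agent.Helper69.UV
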